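import Pool.Agent.Helper13.PV.Defs

/-!
# Product varieties with a locally finite right factor
-/

namespace Pool.Agent.Helper69.PV

open Pool.Agent.Helper13.PV Pool.Agent.Helper32.SmallVar Function

variable {L LU LW LV : Set (FreeGroup ℕ)}

/-- a finitely generated group is countable -/
theorem countable_of_fg (Γ : Type) [Group Γ] (hΓ : Group.FG Γ) : Countable Γ := by
  obtain ⟨α, _, φ, hφ⟩ := Group.fg_iff_exists_freeGroup_hom_surjective_finite.1 hΓ
  exact hφ.countable

/-- the homomorphisms from a finitely generated group to a countable group -/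
theorem countable_hom (Γ : Type) [Group Γ] (hΓ : Group.FG Γ) (H : Type) [Group H] [Countable H] :
    Countable (Γ →* H) := by
  obtain ⟨α, _, φ, hφ⟩ := Group.fg_iff_exists_freeGroup_hom_surjective_finite.1 hΓ
  have hc : Countable (FreeGroup α →* H) :=
    (FreeGroup.lift (α := α) (β := H)).symm.injective.countable
  have hinj : Injective fun f : Γ →* H => f.comp φ := by
    intro f g hfg
    ext x
    obtain ⟨y, rfl⟩ := hφ x
    exact DFunLike.congr_fun hfg y
  exact hinj.countable

theorem countable_normal (hL : IsSmallVariety L) (Γ : Type) [Group Γ] (hΓ : Group.FG Γ) :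
    Set.Countable {R : Subgroup Γ | ∃ _ : R.Normal, SatisfiesLaws L (Γ ⧸ R)} := by
  obtain ⟨H, hH⟩ := hL
  have hcount : Set.Countable (⋃ i : {i : ℕ // Countable (H i)},
      Set.range fun f : Γ →* H i.1 => f.ker) := by
    refine Set.countable_iUnion fun i => ?_
    have := i.2
    have := countable_hom Γ hΓ (H i.1)
    exact Set.countable_range _
  refine hcount.mono ?_
  rintro R ⟨hN, hR⟩
  obtain ⟨i, ⟨e⟩⟩ := hH (Γ ⧸ R) (QuotientGroup.fg R) hR
  have hΓc := countable_of_fg Γ hΓ
  have hs : Surjective (e.toMonoidHom.comp (QuotientGroup.mk' R)) :=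
    e.surjective.comp (QuotientGroup.mk'_surjective R)
  refine Set.mem_iUnion.2 ⟨⟨i, hs.countable⟩, e.toMonoidHom.comp (QuotientGroup.mk' R), ?_⟩
  ext g
  simp only [MonoidHom.mem_ker, MonoidHom.comp_apply, MulEquiv.toMonoidHom_eq_coe,
    MonoidHom.coe_coe]
  rw [map_eq_one_iff _ (MulEquiv.injective _), QuotientGroup.mk'_apply, QuotientGroup.eq_one_iff]

theorem small_of_countable (h : ∀ n : ℕ, Set.Countable {R : Subgroup (FreeGroup (Fin n)) |
    ∃ _ : R.Normal, SatisfiesLaws L (FreeGroup (Fin n) ⧸ R)}) : IsSmallVariety L := by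
  let X : Type := Σ n : ℕ, {R : Subgroup (FreeGroup (Fin n)) //
    ∃ _ : R.Normal, SatisfiesLaws L (FreeGroup (Fin n) ⧸ R)}
  have hX : Countable X := by
    have : ∀ n : ℕ, Countable {R : Subgroup (FreeGroup (Fin n)) //
        ∃ _ : R.Normal, SatisfiesLaws L (FreeGroup (Fin n) ⧸ R)} := fun n => h n
    infer_instance
  have hne : Nonempty X := by
    refine ⟨⟨0, ⊤, inferInstance, ?_⟩⟩
    intro w _ a
    exact Subsingleton.elim _ _
  obtain ⟨e, he⟩ := exists_surjective_nat X
  let K : X → GrpCat.{0} := fun y => @GrpCat.of (FreeGroup (Fin y.1) ⧸ y.2.1)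
    (@QuotientGroup.Quotient.group _ _ _ y.2.2.1)
  refine ⟨fun i => K (e i), ?_⟩
  intro G _ hG hL
  obtain ⟨α, _, φ, hφ⟩ := Group.fg_iff_exists_freeGroup_hom_surjective_finite.1 hG
  obtain ⟨n, ⟨ε⟩⟩ := Finite.exists_equiv_fin α
  let ψ : FreeGroup (Fin n) →* G := φ.comp (FreeGroup.freeGroupCongr ε.symm).toMonoidHom
  have hψ : Surjective ψ := hφ.comp (FreeGroup.freeGroupCongr ε.symm).surjective
  let q : FreeGroup (Fin n) ⧸ ψ.ker ≃* G := QuotientGroup.quotientKerEquivOfSurjective ψ hψ
  have hR : ∃ _ : (ψ.ker).Normal, SatisfiesLaws L (FreeGroup (Fin n) ⧸ ψ.ker) :=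
    ⟨inferInstance, laws_of_inj q.toMonoidHom q.injective hL⟩
  obtain ⟨i, hi⟩ := he ⟨n, ⟨ψ.ker, hR⟩⟩
  have key : ∀ (f : ℕ → GrpCat.{0}) (i : ℕ), f i = GrpCat.of (FreeGroup (Fin n) ⧸ ψ.ker) →
      Nonempty (G ≃* f i) := by
    intro f i hf
    rw [hf]
    exact ⟨q.symm⟩
  refine ⟨i, key (fun i => K (e i)) i ?_⟩
  show K (e i) = _
  rw [hi]

/-- finite quotients give finitely generated subgroups -/
theorem fg_of_finite_quotient (Γ : Type) [Group Γ] (hΓ : Group.FG Γ) (N : Subgroup Γ) [N.Normal]
    (hN : Finite (Γ ⧸ N)) : Group.FG N := by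
  have : N.FiniteIndex := Subgroup.finiteIndex_of_finite_quotient
  exact Subgroup.fg_of_index_ne_zero N

theorem small_lf (hV : ∀ (G : Type) [Group G], SatisfiesLaws LV G ↔ InProduct LU LW G)
    (hW : LocallyFiniteVariety LW) : IsSmallVariety LV ↔ IsSmallVariety LU := by
  constructor
  · rintro ⟨H, hH⟩
    exact ⟨H, fun G _ hG hU => hH G hG ((hV G).2 (inProduct_left hU))⟩
  · intro hU
    refine small_of_countable fun n => ?_
    let F := FreeGroup (Fin n)
    have hF : Group.FG F :=
      Group.fg_iff_exists_freeGroup_hom_surjective_finite.2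
        ⟨Fin n, inferInstance, MonoidHom.id _, surjective_id⟩
    have hc : Set.Countable (⋃ S : Finset F,
        (fun R' : Subgroup (Subgroup.closure (S : Set F)) => R'.map
          (Subgroup.closure (S : Set F)).subtype) ''
        {R' | ∃ _ : R'.Normal, SatisfiesLaws LU (Subgroup.closure (S : Set F) ⧸ R')}) := by
      refine Set.countable_iUnion fun S => ?_
      exact (countable_normal hU _ (Group.closure_finset_fg S)).image _
    refine hc.mono ?_
    rintro R ⟨hN, hR⟩
    obtain ⟨N₀, hN₀, h1, h2⟩ := (hV _).1 hR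
    have hfin : Finite ((F ⧸ R) ⧸ N₀) := hW _ (QuotientGroup.fg N₀) h2
    let N' : Subgroup F := N₀.comap (QuotientGroup.mk' R)
    have hN' : N'.Normal := Subgroup.Normal.comap hN₀ _
    have hfin' : Finite (F ⧸ N') := by
      let f : F →* (F ⧸ R) ⧸ N₀ := (QuotientGroup.mk' N₀).comp (QuotientGroup.mk' R)
      have hk : f.ker = N' := by
        ext x
        simp only [f, N', MonoidHom.mem_ker, MonoidHom.comp_apply, Subgroup.mem_comap]
        rw [QuotientGroup.mk'_apply N₀, QuotientGroup.eq_one_iff]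
      rw [← hk]
      exact Finite.of_injective _ (QuotientGroup.kerLift_injective f)
    have hfg : Group.FG N' := fg_of_finite_quotient F hF N' hfin'
    obtain ⟨S, hS⟩ := (Group.fg_iff_subgroup_fg N').1 hfg
    have hRN : R ≤ N' := by
      intro x hx
      show QuotientGroup.mk' R x ∈ N₀
      have : QuotientGroup.mk' R x = 1 := by
        rw [QuotientGroup.mk'_apply, QuotientGroup.eq_one_iff]
        exact hx
      rw [this]
      exact N₀.one_mem
    refine Set.mem_iUnion.2 ⟨S, ?_⟩
    have hmem : ∀ x : Subgroup.closure (S : Set F), (x : F) ∈ N' := fun x => hS ▸ x.2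
    refine ⟨R.subgroupOf (Subgroup.closure (S : Set F)), ⟨inferInstance, ?_⟩, ?_⟩
    · let g : Subgroup.closure (S : Set F) →* N₀ :=
        ((QuotientGroup.mk' R).comp (Subgroup.closure (S : Set F)).subtype).codRestrict N₀
          (fun x => hmem x)
      have hk : g.ker = R.subgroupOf (Subgroup.closure (S : Set F)) := by
        ext x
        rw [MonoidHom.mem_ker, Subgroup.mem_subgroupOf, ← QuotientGroup.eq_one_iff]
        exact Subtype.ext_iff
      have hinj := QuotientGroup.kerLift_injective g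
      have h3 : SatisfiesLaws LU (Subgroup.closure (S : Set F) ⧸ g.ker) :=
        laws_of_inj (QuotientGroup.kerLift g) hinj h1
      have h4 : ∀ (K K' : Subgroup (Subgroup.closure (S : Set F))) [K.Normal] [K'.Normal],
          K = K' → SatisfiesLaws LU (Subgroup.closure (S : Set F) ⧸ K) →
          SatisfiesLaws LU (Subgroup.closure (S : Set F) ⧸ K') := by
        intro K K' _ _ h
        subst h
        exact id
      exact h4 _ _ hk h3
    · show (R.subgroupOf (Subgroup.closure (S : Set F))).map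
        (Subgroup.closure (S : Set F)).subtype = R
      rw [Subgroup.subgroupOf_map_subtype]
      rw [hS]
      exact inf_eq_left.2 hRN

theorem hopfian_lf (hV : ∀ (G : Type) [Group G], SatisfiesLaws LV G ↔ InProduct LU LW G)
    (hW : LocallyFiniteVariety LW) : AllHopfian LV ↔ AllHopfian LU := by
  constructor
  · intro h G _ hG hU
    exact h G hG ((hV G).2 (inProduct_left hU))
  · intro h G _ hG hL φ hφ
    have hP := (hV G).1 hL
    rw [inProduct_iff] at hP
    set V₀ : Subgroup G := verb LW G with hV₀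
    have hfin : Finite (G ⧸ V₀) := hW _ (QuotientGroup.fg V₀) (verb_le.1 le_rfl)
    have hfg : Group.FG V₀ := fg_of_finite_quotient G hG V₀ hfin
    have hmap : V₀.map φ = V₀ := map_verb φ hφ
    have hmem : ∀ x : V₀, φ x ∈ V₀ := fun x =>
      hmap.le (Subgroup.mem_map_of_mem φ x.2)
    let ψ : V₀ →* V₀ := (φ.comp V₀.subtype).codRestrict V₀ hmem
    have hψs : Surjective ψ := by
      rintro ⟨y, hy⟩
      have hy2 := hy
      rw [← hmap] at hy2
      obtain ⟨x, hx, hxy⟩ := hy2
      exact ⟨⟨x, hx⟩, Subtype.ext hxy⟩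
    have hψi : Injective ψ := h V₀ hfg hP ψ hψs
    let χ : G ⧸ V₀ →* G ⧸ V₀ := QuotientGroup.map V₀ V₀ φ (by
      rw [← Subgroup.map_le_iff_le_comap, hmap])
    have hχs : Surjective χ := by
      intro y
      obtain ⟨y, rfl⟩ := QuotientGroup.mk'_surjective V₀ y
      obtain ⟨x, rfl⟩ := hφ y
      exact ⟨QuotientGroup.mk' V₀ x, rfl⟩
    have hχi : Injective χ := Finite.injective_iff_surjective.2 hχs
    rw [injective_iff_map_eq_one]
    intro g hg
    have h1 : χ (QuotientGroup.mk' V₀ g) = 1 := by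
      show QuotientGroup.mk' V₀ (φ g) = 1
      rw [hg, map_one]
    have h2 : QuotientGroup.mk' V₀ g = 1 := by
      apply hχi
      rw [h1, map_one]
    rw [QuotientGroup.mk'_apply, QuotientGroup.eq_one_iff] at h2
    have h3 : ψ ⟨g, h2⟩ = 1 := Subtype.ext hg
    have h4 : (⟨g, h2⟩ : V₀) = 1 := by
      apply hψi
      rw [h3, map_one]
    exact congrArg Subtype.val h4

end Pool.Agent.Helper69.PV
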